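import Pool.Agent.H50.G.S.W25.UN.Stm
/-! Project UN: the fundamental lemma with residue classes, from the fundamental lemma. -/

set_option autoImplicit false

namespace Pool.Agent.W45.UNFLA

open Finset
open Pool.Agent.W25.UN

theorem filt_eq (S : Finset ℕ) (p : ℕ → Prop) (i j : DecidablePred p) :
    @Finset.filter ℕ p i S = @Finset.filter ℕ p j S := by
  obtain rfl : i = j := Subsingleton.elim _ _
  rfl

/-- decomposition of the sum over the `n` whose residues are in given sets -/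
theorem sum_dec (S T : Finset ℕ) (w : ℕ → ℝ) (Om : ℕ → Finset ℕ) :
    ∑ n ∈ S.filter (fun n => ∀ p ∈ T, n % p ∈ Om p), w n =
      ∑ c ∈ T.pi Om, ∑ n ∈ S.filter (fun n => ∀ p ∈ T, n % p = if h : p ∈ T then c p h else 0),
        w n := by
  classical
  have h1 : ∀ n ∈ S.filter (fun n => ∀ p ∈ T, n % p ∈ Om p),
      (fun p (_ : p ∈ T) => n % p) ∈ T.pi Om := by
    intro n hn
    rw [Finset.mem_filter] at hn
    rw [Finset.mem_pi]
    exact hn.2
  rw [← Finset.sum_fiberwise_of_maps_to (g := fun n => (fun p (_ : p ∈ T) => n % p)) h1]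
  refine Finset.sum_congr rfl fun c hc => ?_
  refine Finset.sum_congr ?_ fun _ _ => rfl
  rw [Finset.mem_pi] at hc
  ext n
  rw [Finset.mem_filter, Finset.mem_filter, Finset.mem_filter]
  constructor
  · rintro ⟨⟨hn, -⟩, h⟩
    refine ⟨hn, fun p hp => ?_⟩
    rw [dif_pos hp, ← h]
  · rintro ⟨hn, h⟩
    refine ⟨⟨hn, fun p hp => ?_⟩, ?_⟩
    · have := h p hp
      rw [dif_pos hp] at this
      rw [this]
      exact hc p hp
    · funext p hp
      have := h p hp
      rw [dif_pos hp] at this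
      exact this

theorem est (S T : Finset ℕ) (w : ℕ → ℝ) (Om : ℕ → Finset ℕ) (A G E : ℝ) (κ : ℕ)
    (hE : 0 ≤ E) (hκ : ∀ p ∈ T, (Om p).card ≤ κ)
    (h : ∀ c : ℕ → ℕ, (∀ p ∈ T, c p ∈ Om p) →
      |∑ n ∈ S.filter (fun n => ∀ p ∈ T, n % p = c p), w n - A * G| ≤ E) :
    |∑ n ∈ S.filter (fun n => ∀ p ∈ T, n % p ∈ Om p), w n -
      (∏ p ∈ T, ((Om p).card : ℝ)) * (A * G)| ≤ (κ : ℝ) ^ T.card * E := by
  classical
  rw [sum_dec]
  have h1 : (∏ p ∈ T, ((Om p).card : ℝ)) * (A * G) = ∑ _c ∈ T.pi Om, A * G := by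
    rw [Finset.sum_const, Finset.card_pi, nsmul_eq_mul, Nat.cast_prod]
  rw [h1, ← Finset.sum_sub_distrib]
  refine (Finset.abs_sum_le_sum_abs _ _).trans ?_
  have h2 : ∀ c ∈ T.pi Om, |∑ n ∈ S.filter (fun n => ∀ p ∈ T, n % p =
      if h : p ∈ T then c p h else 0), w n - A * G| ≤ E := by
    intro c hc
    rw [Finset.mem_pi] at hc
    apply h (fun p => if h : p ∈ T then c p h else 0)
    intro p hp
    simp only [hp, dif_pos]
    exact hc p hp
  refine (Finset.sum_le_sum h2).trans ?_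
  rw [Finset.sum_const, Finset.card_pi, nsmul_eq_mul, Nat.cast_prod]
  apply mul_le_mul_of_nonneg_right _ hE
  rw [← Finset.prod_const]
  apply Finset.prod_le_prod
  · intro p _
    positivity
  · intro p hp
    exact_mod_cast hκ p hp

theorem main (h : Pool.Agent.H410R2.EN.FLem) : FLA := by
  classical
  intro κ
  obtain ⟨C0, hC0, H⟩ := h κ
  refine ⟨C0, hC0, ?_⟩
  intro b J z0 P g Om hb hz hP hOm hg S w A err hw hA herr hT
  have hg' : ∀ p ∈ P, 0 ≤ ((Om p).card : ℝ) * g p ∧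
      ((Om p).card : ℝ) * g p ≤ κ / ((p : ℝ) - 1) := by
    intro p hp
    obtain ⟨h1, h2⟩ := hg p hp
    have h3 : ((Om p).card : ℝ) ≤ κ := by exact_mod_cast hOm p hp
    refine ⟨mul_nonneg (Nat.cast_nonneg _) h1, ?_⟩
    calc ((Om p).card : ℝ) * g p ≤ κ * (1 / ((p : ℝ) - 1)) :=
          mul_le_mul h3 h2 h1 (Nat.cast_nonneg _)
      _ = κ / ((p : ℝ) - 1) := by ring
  have key := H b J z0 P (fun p => ((Om p).card : ℝ) * g p) hb hz hP hg' S w
    (fun p n => n % p ∈ Om p) A (fun T => (κ : ℝ) ^ T.card * err (∏ p ∈ T, p)) hw hA ?_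
  · convert key using 4
    exact filt_eq _ _ _ _
  · intro T hTP hTl
    have h5 := est S T w Om A (∏ p ∈ T, g p) (err (∏ p ∈ T, p)) κ (herr _)
      (fun p hp => hOm p (hTP hp)) (fun c hc => by convert hT T hTP hTl c hc using 4)
    have h6 : A * ∏ p ∈ T, ((Om p).card : ℝ) * g p =
        (∏ p ∈ T, ((Om p).card : ℝ)) * (A * ∏ p ∈ T, g p) := by
      rw [Finset.prod_mul_distrib]
      ring
    rw [h6]
    convert h5 using 4
    exact filt_eq _ _ _ _

end Pool.Agent.W45.UNFLA
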